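import Mathlib.Data.Nat.Basic
import Mathlib.Data.Int.Interval
import Mathlib.Order.Interval.Finset.Nat
import Mathlib.Tactic

set_option autoImplicit false

/-!
# Module II-F1 of MP_6b3417_co: the pigeonhole of II.5

Pure combinatorics: two functions which increase strictly in both variables and are bounded agree
with `j + k + const` on suitable small blocks.
-/

namespace Pool.Agent.helper80.Vis

/-- counting: disjoint increasing intervals inside `[A, B]` -/
lemma cnt (I : Finset ℕ) (u v : ℕ → ℤ) (A B : ℤ) (huv : ∀ t ∈ I, u t ≤ v t)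
    (hmono : ∀ t ∈ I, ∀ t' ∈ I, t < t' → v t ≤ u t') (hA : ∀ t ∈ I, A ≤ u t)
    (hB : ∀ t ∈ I, v t ≤ B) (hAB : A ≤ B) :
    ((I.filter (fun t => u t ≠ v t)).card : ℤ) ≤ B - A := by
  have h1 : (I.filter (fun t => u t ≠ v t)).card ≤ (Finset.Ico A B).card := by
    apply Finset.card_le_card_of_injOn u
    · intro t ht
      have ht' := Finset.mem_filter.1 (Finset.mem_coe.1 ht)
      have h2 := huv t ht'.1
      have h3 := hA t ht'.1
      have h4 := hB t ht'.1
      have h5 : u t < v t := lt_of_le_of_ne h2 ht'.2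
      rw [Finset.mem_coe, Finset.mem_Ico]
      exact ⟨h3, by linarith⟩
    · intro t ht t' ht' h
      have ht1 := Finset.mem_filter.1 (Finset.mem_coe.1 ht)
      have ht1' := Finset.mem_filter.1 (Finset.mem_coe.1 ht')
      have e1 : u t < v t := lt_of_le_of_ne (huv t ht1.1) ht1.2
      have e2 : u t' < v t' := lt_of_le_of_ne (huv t' ht1'.1) ht1'.2
      rcases lt_trichotomy t t' with h3 | h3 | h3
      · have := hmono t ht1.1 t' ht1'.1 h3
        linarith
      · exact h3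
      · have := hmono t' ht1'.1 t ht1.1 h3
        linarith
  rw [Int.card_Ico] at h1
  omega

/-- strict monotonicity on a grid, integrated -/
lemma grid (a0 a1 b0 b1 : ℕ) (F : ℕ → ℕ → ℕ)
    (hF1 : ∀ j k, a0 ≤ j → j + 1 < a1 → b0 ≤ k → k < b1 → F j k < F (j + 1) k)
    (hF2 : ∀ j k, a0 ≤ j → j < a1 → b0 ≤ k → k + 1 < b1 → F j k < F j (k + 1)) (j k : ℕ)
    (hj : a0 ≤ j) (hk : b0 ≤ k) (x y : ℕ) (hx : j + x < a1) (hy : k + y < b1) :
    F j k + x + y ≤ F (j + x) (k + y) := by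
  induction x with
  | zero =>
    induction y with
    | zero => simp
    | succ y ih =>
      have h1 := ih (by omega)
      have h2 := hF2 (j + 0) (k + y) (by omega) (by omega) (by omega) (by omega)
      rw [← add_assoc k y 1]
      omega
  | succ x ih =>
    have h1 := ih (by omega)
    have h2 := hF1 (j + x) (k + y) (by omega) (by omega) (by omega) (by omega)
    rw [← add_assoc j x 1]
    omega

/-- a block on which the corner values force equality everywhere -/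
lemma block (a0 a1 b0 b1 : ℕ) (F : ℕ → ℕ → ℕ)
    (hF1 : ∀ j k, a0 ≤ j → j + 1 < a1 → b0 ≤ k → k < b1 → F j k < F (j + 1) k)
    (hF2 : ∀ j k, a0 ≤ j → j < a1 → b0 ≤ k → k + 1 < b1 → F j k < F j (k + 1)) (j k : ℕ)
    (hj : a0 ≤ j) (hk : b0 ≤ k) (x y : ℕ) (hx : j + x < a1) (hy : k + y < b1)
    (h : F (j + x) (k + y) = F j k + x + y) (δ ε : ℕ) (hδ : δ ≤ x) (hε : ε ≤ y) :
    F (j + δ) (k + ε) = F j k + δ + ε := by
  have h1 := grid a0 a1 b0 b1 F hF1 hF2 j k hj hk δ ε (by omega) (by omega)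
  have h2 := grid a0 a1 b0 b1 F hF1 hF2 (j + δ) (k + ε) (by omega) (by omega) (x - δ) (y - ε)
    (by omega) (by omega)
  have e1 : j + δ + (x - δ) = j + x := by omega
  have e2 : k + ε + (y - ε) = k + y := by omega
  rw [e1, e2] at h2
  omega

/-- at most two indices -/
lemma card_le_two (I : Finset ℕ) (m : ℕ → ℕ) (hm : ∀ t ∈ I, ∀ t' ∈ I, t < t' → m t + 5 ≤ m t')
    (h : ∀ t ∈ I, m t < 10) : I.card ≤ 2 := by
  have h1 : I.card ≤ (Finset.range 2).card := by
    apply Finset.card_le_card_of_injOn (fun t => m t / 5)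
    · intro t ht
      have := h t (Finset.mem_coe.1 ht)
      rw [Finset.mem_coe, Finset.mem_range]
      change m t / 5 < 2
      omega
    · intro t ht t' ht' he
      change m t / 5 = m t' / 5 at he
      rcases lt_trichotomy t t' with h3 | h3 | h3
      · have := hm t (Finset.mem_coe.1 ht) t' (Finset.mem_coe.1 ht') h3
        omega
      · exact h3
      · have := hm t' (Finset.mem_coe.1 ht') t (Finset.mem_coe.1 ht) h3
        omega
  simpa using h1

theorem pigeon (a0 a1 b0 b1 c0 c1 e0 e1 nb nc T : ℕ) (F G : ℕ → ℕ → ℕ)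
    (hF1 : ∀ j k, a0 ≤ j → j + 1 < a1 → b0 ≤ k → k < b1 → F j k < F (j + 1) k)
    (hF2 : ∀ j k, a0 ≤ j → j < a1 → b0 ≤ k → k + 1 < b1 → F j k < F j (k + 1))
    (hF : ∀ j k, F j k ≤ 2 * nb)
    (hG1 : ∀ j k, c0 ≤ j → j + 1 < c1 → e0 ≤ k → k < e1 → G j k < G (j + 1) k)
    (hG2 : ∀ j k, c0 ≤ j → j < c1 → e0 ≤ k → k + 1 < e1 → G j k < G j (k + 1))
    (hG : ∀ j k, G j k ≤ 2 * nc)
    (hc0 : c0 ≤ 7) (hc1 : nb ≤ c1 + 7) (hT0 : 0 < T) (hc : c0 < c1)
    (hT1 : a0 + 3 * T ≤ a1) (hT2 : b0 + 8 * T ≤ b1) (hT3 : e0 + 4 * T ≤ e1)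
    (hT : 2 * nb + 2 * nc + 20 + (a0 + b0 + c0 + e0) ≤ T + (a1 + b1 + c1 + e1)) :
    ∃ j k m l q : ℕ, a0 ≤ j ∧ j + 3 ≤ a1 ∧ b0 ≤ k ∧ k + 7 ≤ b1 ∧ c0 ≤ m ∧ m + 5 ≤ c1 ∧ e0 ≤ l ∧
      l + 3 ≤ e1 ∧ (∀ δ ε : ℕ, δ ≤ 2 → ε ≤ 6 → F (j + δ) (k + ε) = 2 * m + 1 + δ + ε) ∧
      (∀ δ ε : ℕ, δ ≤ 4 → ε ≤ 2 → G (m + δ) (l + ε) = 2 * q + 1 + δ + ε) := by
  have gF := grid a0 a1 b0 b1 F hF1 hF2
  have gG := grid c0 c1 e0 e1 G hG1 hG2
  -- the first family of blocks
  let u : ℕ → ℤ := fun t => (F (a0 + 3 * t) (b0 + 8 * t) : ℤ) - (a0 + 3 * t) - (b0 + 8 * t)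
  let v : ℕ → ℤ := fun t => (F (a0 + 3 * t + 2) (b0 + 8 * t + 7) : ℤ) - (a0 + 3 * t + 2) -
    (b0 + 8 * t + 7)
  let m : ℕ → ℕ := fun t => F (a0 + 3 * t) (b0 + 8 * t) / 2
  have hc1F : (((Finset.range T).filter (fun t => u t ≠ v t)).card : ℤ) ≤
      (2 * nb - (a1 - 1) - (b1 - 1)) - (- a0 - b0) := by
    apply cnt
    · intro t ht
      rw [Finset.mem_range] at ht
      have := gF (a0 + 3 * t) (b0 + 8 * t) (by omega) (by omega) 2 7 (by omega) (by omega)
      change (F (a0 + 3 * t) (b0 + 8 * t) : ℤ) - (a0 + 3 * t) - (b0 + 8 * t) ≤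
        (F (a0 + 3 * t + 2) (b0 + 8 * t + 7) : ℤ) - (a0 + 3 * t + 2) - (b0 + 8 * t + 7)
      omega
    · intro t ht t' ht' htt
      rw [Finset.mem_range] at ht ht'
      have := gF (a0 + 3 * t + 2) (b0 + 8 * t + 7) (by omega) (by omega)
        (3 * t' - (3 * t + 2)) (8 * t' - (8 * t + 7)) (by omega) (by omega)
      have e1 : a0 + 3 * t + 2 + (3 * t' - (3 * t + 2)) = a0 + 3 * t' := by omega
      have e2 : b0 + 8 * t + 7 + (8 * t' - (8 * t + 7)) = b0 + 8 * t' := by omega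
      rw [e1, e2] at this
      change (F (a0 + 3 * t + 2) (b0 + 8 * t + 7) : ℤ) - (a0 + 3 * t + 2) - (b0 + 8 * t + 7) ≤
        (F (a0 + 3 * t') (b0 + 8 * t') : ℤ) - (a0 + 3 * t') - (b0 + 8 * t')
      omega
    · intro t ht
      rw [Finset.mem_range] at ht
      have := gF a0 b0 (by omega) (by omega) (3 * t) (8 * t) (by omega) (by omega)
      change (- a0 - b0 : ℤ) ≤ (F (a0 + 3 * t) (b0 + 8 * t) : ℤ) - (a0 + 3 * t) - (b0 + 8 * t)
      omega
    · intro t ht
      rw [Finset.mem_range] at ht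
      have := gF (a0 + 3 * t + 2) (b0 + 8 * t + 7) (by omega) (by omega)
        (a1 - 1 - (a0 + 3 * t + 2)) (b1 - 1 - (b0 + 8 * t + 7)) (by omega) (by omega)
      have e1 : a0 + 3 * t + 2 + (a1 - 1 - (a0 + 3 * t + 2)) = a1 - 1 := by omega
      have e2 : b0 + 8 * t + 7 + (b1 - 1 - (b0 + 8 * t + 7)) = b1 - 1 := by omega
      rw [e1, e2] at this
      have h2 := hF (a1 - 1) (b1 - 1)
      change (F (a0 + 3 * t + 2) (b0 + 8 * t + 7) : ℤ) - (a0 + 3 * t + 2) - (b0 + 8 * t + 7) ≤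
        2 * nb - (a1 - 1) - (b1 - 1)
      omega
    · have := gF a0 b0 (by omega) (by omega) (a1 - 1 - a0) (b1 - 1 - b0) (by omega) (by omega)
      have e1 : a0 + (a1 - 1 - a0) = a1 - 1 := by omega
      have e2 : b0 + (b1 - 1 - b0) = b1 - 1 := by omega
      rw [e1, e2] at this
      have h2 := hF (a1 - 1) (b1 - 1)
      omega
  set I1 := (Finset.range T).filter (fun t => ¬ u t ≠ v t) with hI1
  have hI1T : ∀ t ∈ I1, t < T := fun t ht => Finset.mem_range.1 (Finset.mem_filter.1 ht).1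
  have hcardI1 : ((Finset.range T).filter (fun t => u t ≠ v t)).card + I1.card = T := by
    have h := Finset.card_filter_add_card_filter_not (s := Finset.range T) (fun t => u t ≠ v t)
    rw [Finset.card_range] at h
    exact h
  have hblock1 : ∀ t ∈ I1, ∀ δ ε : ℕ, δ ≤ 2 → ε ≤ 7 →
      F (a0 + 3 * t + δ) (b0 + 8 * t + ε) = F (a0 + 3 * t) (b0 + 8 * t) + δ + ε := by
    intro t ht δ ε hδ hε
    have htT := hI1T t ht
    have huv : u t = v t := not_not.1 (Finset.mem_filter.1 ht).2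
    change (F (a0 + 3 * t) (b0 + 8 * t) : ℤ) - (a0 + 3 * t) - (b0 + 8 * t) =
        (F (a0 + 3 * t + 2) (b0 + 8 * t + 7) : ℤ) - (a0 + 3 * t + 2) - (b0 + 8 * t + 7) at huv
    exact block a0 a1 b0 b1 F hF1 hF2 (a0 + 3 * t) (b0 + 8 * t) (by omega) (by omega) 2 7
      (by omega) (by omega) (by omega) δ ε hδ hε
  have hmm : ∀ t ∈ I1, ∀ t' ∈ I1, t < t' → m t + 5 ≤ m t' := by
    intro t ht t' ht' htt
    have htT := hI1T t ht
    have htT' := hI1T t' ht'
    have := gF (a0 + 3 * t) (b0 + 8 * t) (by omega) (by omega) (3 * t' - 3 * t) (8 * t' - 8 * t)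
      (by omega) (by omega)
    have e1 : a0 + 3 * t + (3 * t' - 3 * t) = a0 + 3 * t' := by omega
    have e2 : b0 + 8 * t + (8 * t' - 8 * t) = b0 + 8 * t' := by omega
    rw [e1, e2] at this
    change F (a0 + 3 * t) (b0 + 8 * t) / 2 + 5 ≤ F (a0 + 3 * t') (b0 + 8 * t') / 2
    omega
  have hmub : ∀ t ∈ I1, m t + 5 ≤ nb := by
    intro t ht
    have h1 := hblock1 t ht 2 7 le_rfl le_rfl
    have h2 := hF (a0 + 3 * t + 2) (b0 + 8 * t + 7)
    change F (a0 + 3 * t) (b0 + 8 * t) / 2 + 5 ≤ nb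
    omega
  -- few indices have `m t` too small or too large
  have hlow : (I1.filter (fun t => m t < c0)).card ≤ 2 := by
    apply card_le_two _ m
    · intro t ht t' ht' htt
      exact hmm t (Finset.mem_filter.1 ht).1 t' (Finset.mem_filter.1 ht').1 htt
    · intro t ht
      have := (Finset.mem_filter.1 ht).2
      omega
  have hhigh : (I1.filter (fun t => c1 < m t + 5)).card ≤ 2 := by
    have h1 : (I1.filter (fun t => c1 < m t + 5)).card ≤ (Finset.range 2).card := by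
      apply Finset.card_le_card_of_injOn (fun t => (nb - 5 - m t) / 5)
      · intro t ht
        have h1 := (Finset.mem_filter.1 (Finset.mem_coe.1 ht)).2
        rw [Finset.mem_coe, Finset.mem_range]
        change (nb - 5 - m t) / 5 < 2
        omega
      · intro t ht t' ht' he
        change (nb - 5 - m t) / 5 = (nb - 5 - m t') / 5 at he
        have h1 := (Finset.mem_filter.1 (Finset.mem_coe.1 ht)).1
        have h1' := (Finset.mem_filter.1 (Finset.mem_coe.1 ht')).1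
        have h2 := hmub t h1
        have h2' := hmub t' h1'
        rcases lt_trichotomy t t' with h3 | h3 | h3
        · have := hmm t h1 t' h1' h3
          omega
        · exact h3
        · have := hmm t' h1' t h1 h3
          omega
    simpa using h1
  set I2 := I1.filter (fun t => ¬ m t < c0 ∧ ¬ c1 < m t + 5) with hI2
  have hcardI2 : I1.card ≤ I2.card + 4 := by
    have hsub : I1 ⊆ I2 ∪ (I1.filter (fun t => m t < c0) ∪ I1.filter (fun t => c1 < m t + 5)) := by
      intro t ht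
      by_cases h1 : m t < c0
      · exact Finset.mem_union_right _ (Finset.mem_union_left _ (Finset.mem_filter.2 ⟨ht, h1⟩))
      · by_cases h2 : c1 < m t + 5
        · exact Finset.mem_union_right _ (Finset.mem_union_right _ (Finset.mem_filter.2 ⟨ht, h2⟩))
        · exact Finset.mem_union_left _ (Finset.mem_filter.2 ⟨ht, h1, h2⟩)
    have h1 := Finset.card_le_card hsub
    have h2 := Finset.card_union_le I2
      (I1.filter (fun t => m t < c0) ∪ I1.filter (fun t => c1 < m t + 5))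
    have h3 := Finset.card_union_le (I1.filter (fun t => m t < c0))
      (I1.filter (fun t => c1 < m t + 5))
    omega
  have hI2' : ∀ t ∈ I2, t ∈ I1 ∧ t < T ∧ c0 ≤ m t ∧ m t + 5 ≤ c1 := by
    intro t ht
    have h := Finset.mem_filter.1 ht
    refine ⟨h.1, hI1T t h.1, ?_, ?_⟩
    · have := h.2.1
      omega
    · have := h.2.2
      omega
  -- the second family of blocks
  let u' : ℕ → ℤ := fun t => (G (m t) (e0 + 4 * t) : ℤ) - m t - (e0 + 4 * t)
  let v' : ℕ → ℤ := fun t => (G (m t + 4) (e0 + 4 * t + 3) : ℤ) - (m t + 4) - (e0 + 4 * t + 3)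
  have hc2G : ((I2.filter (fun t => u' t ≠ v' t)).card : ℤ) ≤
      (2 * nc - (c1 - 1) - (e1 - 1)) - (- c0 - e0) := by
    apply cnt
    · intro t ht
      obtain ⟨h1, h2, h3, h4⟩ := hI2' t ht
      have := gG (m t) (e0 + 4 * t) (by omega) (by omega) 4 3 (by omega) (by omega)
      change (G (m t) (e0 + 4 * t) : ℤ) - m t - (e0 + 4 * t) ≤
        (G (m t + 4) (e0 + 4 * t + 3) : ℤ) - (m t + 4) - (e0 + 4 * t + 3)
      omega
    · intro t ht t' ht' htt
      obtain ⟨h1, h2, h3, h4⟩ := hI2' t ht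
      obtain ⟨h1', h2', h3', h4'⟩ := hI2' t' ht'
      have hm5 := hmm t h1 t' h1' htt
      have := gG (m t + 4) (e0 + 4 * t + 3) (by omega) (by omega)
        (m t' - (m t + 4)) (4 * t' - (4 * t + 3)) (by omega) (by omega)
      have e1 : m t + 4 + (m t' - (m t + 4)) = m t' := by omega
      have e2 : e0 + 4 * t + 3 + (4 * t' - (4 * t + 3)) = e0 + 4 * t' := by omega
      rw [e1, e2] at this
      change (G (m t + 4) (e0 + 4 * t + 3) : ℤ) - (m t + 4) - (e0 + 4 * t + 3) ≤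
        (G (m t') (e0 + 4 * t') : ℤ) - m t' - (e0 + 4 * t')
      omega
    · intro t ht
      obtain ⟨h1, h2, h3, h4⟩ := hI2' t ht
      have := gG c0 e0 (by omega) (by omega) (m t - c0) (4 * t) (by omega) (by omega)
      have e1 : c0 + (m t - c0) = m t := by omega
      rw [e1] at this
      change (- c0 - e0 : ℤ) ≤ (G (m t) (e0 + 4 * t) : ℤ) - m t - (e0 + 4 * t)
      omega
    · intro t ht
      obtain ⟨h1, h2, h3, h4⟩ := hI2' t ht
      have := gG (m t + 4) (e0 + 4 * t + 3) (by omega) (by omega)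
        (c1 - 1 - (m t + 4)) (e1 - 1 - (e0 + 4 * t + 3)) (by omega) (by omega)
      have e1' : m t + 4 + (c1 - 1 - (m t + 4)) = c1 - 1 := by omega
      have e2' : e0 + 4 * t + 3 + (e1 - 1 - (e0 + 4 * t + 3)) = e1 - 1 := by omega
      rw [e1', e2'] at this
      have h2 := hG (c1 - 1) (e1 - 1)
      change (G (m t + 4) (e0 + 4 * t + 3) : ℤ) - (m t + 4) - (e0 + 4 * t + 3) ≤
        2 * nc - (c1 - 1) - (e1 - 1)
      omega
    · have := gG c0 e0 (by omega) (by omega) (c1 - 1 - c0) (e1 - 1 - e0) (by omega) (by omega)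
      have e1' : c0 + (c1 - 1 - c0) = c1 - 1 := by omega
      have e2' : e0 + (e1 - 1 - e0) = e1 - 1 := by omega
      rw [e1', e2'] at this
      have h2 := hG (c1 - 1) (e1 - 1)
      omega
  have hcardI3 := Finset.card_filter_add_card_filter_not (s := I2) (fun t => u' t ≠ v' t)
  have hpos : 0 < (I2.filter (fun t => ¬ u' t ≠ v' t)).card := by
    omega
  obtain ⟨t, ht⟩ := Finset.card_pos.1 hpos
  obtain ⟨ht2, htu⟩ := Finset.mem_filter.1 ht
  obtain ⟨h1, h2, h3, h4⟩ := hI2' t ht2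
  have huv' : u' t = v' t := not_not.1 htu
  change (G (m t) (e0 + 4 * t) : ℤ) - m t - (e0 + 4 * t) =
        (G (m t + 4) (e0 + 4 * t + 3) : ℤ) - (m t + 4) - (e0 + 4 * t + 3) at huv'
  have hblock2 : ∀ δ ε : ℕ, δ ≤ 4 → ε ≤ 3 →
      G (m t + δ) (e0 + 4 * t + ε) = G (m t) (e0 + 4 * t) + δ + ε := fun δ ε hδ hε =>
    block c0 c1 e0 e1 G hG1 hG2 (m t) (e0 + 4 * t) (by omega) (by omega) 4 3
      (by omega) (by omega) (by omega) δ ε hδ hε
  have hmt : m t = F (a0 + 3 * t) (b0 + 8 * t) / 2 := rfl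
  refine ⟨a0 + 3 * t, b0 + 8 * t + (1 - F (a0 + 3 * t) (b0 + 8 * t) % 2), m t,
    e0 + 4 * t + (1 - G (m t) (e0 + 4 * t) % 2), G (m t) (e0 + 4 * t) / 2, by omega, by omega,
    by omega, by omega, h3, h4, by omega, by omega, ?_, ?_⟩
  · intro δ ε hδ hε
    have := hblock1 t h1 δ (1 - F (a0 + 3 * t) (b0 + 8 * t) % 2 + ε) hδ (by omega)
    rw [← add_assoc] at this
    rw [this, hmt]
    omega
  · intro δ ε hδ hε
    have := hblock2 δ (1 - G (m t) (e0 + 4 * t) % 2 + ε) hδ (by omega)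
    rw [← add_assoc] at this
    rw [this]
    omega

end Pool.Agent.helper80.Vis
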