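import Pool.Agent.helper47.Vis.Rows

set_option autoImplicit false

/-!
# MP_6b3417_co, module II-P3b: a long row followed by a single point
-/

namespace Pool.Agent.helper80.Vis

open Pool.Agent.helper47.Vis

lemma seg_coords {p q r : ℝ × ℝ} (h : r ∈ openSegment ℝ p q) :
    ∃ t : ℝ, 0 < t ∧ t < 1 ∧ r.1 = p.1 + t * (q.1 - p.1) ∧ r.2 = p.2 + t * (q.2 - p.2) := by
  obtain ⟨s, t, hs, ht, hst, rfl⟩ := h
  refine ⟨t, ht, by linarith, ?_, ?_⟩
  · have hs' : s = 1 - t := by linarith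
    subst hs'
    simp only [Prod.fst_add, Prod.smul_fst, smul_eq_mul]; ring
  · have hs' : s = 1 - t := by linarith
    subst hs'
    simp only [Prod.snd_add, Prod.smul_snd, smul_eq_mul]; ring

lemma seg_heights {p q r : ℝ × ℝ} (h : r ∈ openSegment ℝ p q) (hlt : p.2 < q.2) :
    p.2 < r.2 ∧ r.2 < q.2 := by
  obtain ⟨t, h0, h1, -, h2⟩ := seg_coords h
  rw [h2]
  constructor <;> nlinarith

/-- Cross product of `w - o` and `w' - o`. -/
def cr (o w w' : ℝ × ℝ) : ℝ := (w.1 - o.1) * (w'.2 - o.2) - (w'.1 - o.1) * (w.2 - o.2)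

/-- The points of the row at height `a` which do not see `p`: at most one for each height between. -/
lemma bad_le (W : Set (ℝ × ℝ)) (hfin : W.Finite) (a : ℝ) (N : ℕ) (u : ℕ → ℝ)
    (hu : ∀ j k, j < k → k < N → u j < u k) (p : ℝ × ℝ) (hp : a < p.2)
    (huniq : ∀ r ∈ W, ∀ r' ∈ W, a < r.2 → r.2 < p.2 → r.2 = r'.2 → r = r') :
    Set.ncard {j : ℕ | j < N ∧ ¬ Sees W (u j, a) p} ≤
      Set.ncard {h : ℝ | a < h ∧ h < p.2 ∧ ∃ w ∈ W, w.2 = h} := by
  classical
  have hex : ∀ j : ℕ, ¬ Sees W (u j, a) p → ∃ r ∈ W, r ∈ openSegment ℝ ((u j, a) : ℝ × ℝ) p := by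
    intro j hj
    by_contra hcon
    push Not at hcon
    apply hj
    refine ⟨?_, fun r hr => hcon r hr⟩
    intro h
    rw [← h] at hp
    exact lt_irrefl _ hp
  choose! g hgW hgs using hex
  have hT : Set.Finite {h : ℝ | a < h ∧ h < p.2 ∧ ∃ w ∈ W, w.2 = h} := by
    apply (hfin.image Prod.snd).subset
    rintro h ⟨-, -, w, hw, rfl⟩
    exact ⟨w, hw, rfl⟩
  refine Set.ncard_le_ncard_of_injOn (fun j => (g j).2) ?_ ?_ hT
  · rintro j ⟨hjN, hj⟩
    have := seg_heights (hgs j hj) hp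
    exact ⟨this.1, this.2, g j, hgW j hj, rfl⟩
  · rintro j ⟨hjN, hj⟩ k ⟨hkN, hk⟩ hjk
    simp only at hjk
    have hj1 := seg_heights (hgs j hj) hp
    have hk1 := seg_heights (hgs k hk) hp
    have heq := huniq _ (hgW j hj) _ (hgW k hk) hj1.1 hj1.2 hjk
    obtain ⟨t, t0, t1, hx, hy⟩ := seg_coords (hgs j hj)
    obtain ⟨s, s0, s1, hx', hy'⟩ := seg_coords (hgs k hk)
    rw [← heq] at hx' hy'
    simp only at hx hy hx' hy'
    have hts : t = s := by
      have : t * (p.2 - a) = s * (p.2 - a) := by linarith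
      exact mul_right_cancel₀ (ne_of_gt (by linarith)) this
    subst hts
    have huu : u j = u k := by
      have : (1 - t) * u j = (1 - t) * u k := by linarith
      exact mul_left_cancel₀ (ne_of_gt (by linarith)) this
    rcases lt_trichotomy j k with h | h | h
    · exact absurd huu (ne_of_lt (hu j k h hkN))
    · exact h
    · exact absurd huu.symm (ne_of_lt (hu k j h hjN))

/-- Two points above the row, both seen by all but few points of the row, seeing each other and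
`c₀`, which sees the whole row: a `K₅`. -/
lemma final_K5 (W : Set (ℝ × ℝ)) (hK : K5free W) (a : ℝ) (J : ℕ)
    (u : ℕ → ℝ) (hu : ∀ j k, j < k → k < 2 * J + 6 → u j < u k)
    (hum : ∀ j, j < 2 * J + 6 → (u j, a) ∈ W)
    (huc : ∀ j, j + 1 < 2 * J + 6 → ∀ t : ℝ, u j < t → t < u (j + 1) → (t, a) ∉ W)
    (c₀ c₁ e : ℝ × ℝ) (hc : c₀ ∈ W) (hc1 : c₁ ∈ W) (he : e ∈ W)
    (h0 : ∀ j, j < 2 * J + 6 → Sees W (u j, a) c₀)
    (h01 : Sees W c₀ c₁) (h0e : Sees W c₀ e) (h1e : Sees W c₁ e)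
    (hb : Set.ncard {j : ℕ | j < 2 * J + 6 ∧ ¬ Sees W (u j, a) c₁} +
      Set.ncard {j : ℕ | j < 2 * J + 6 ∧ ¬ Sees W (u j, a) e} < J + 3) : False := by
  classical
  set B : Set ℕ := {j : ℕ | j < 2 * J + 6 ∧ ¬ Sees W (u j, a) c₁} ∪
    {j : ℕ | j < 2 * J + 6 ∧ ¬ Sees W (u j, a) e} with hB
  have hBfin : B.Finite := by
    apply (Set.finite_lt_nat (2 * J + 6)).subset
    rintro j (⟨h, -⟩ | ⟨h, -⟩) <;> exact h
  have hBcard : B.ncard < J + 3 := lt_of_le_of_lt (Set.ncard_union_le _ _) hb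
  have hgood : ∃ i, i < J + 3 ∧ 2 * i ∉ B ∧ 2 * i + 1 ∉ B := by
    by_contra hcon
    push Not at hcon
    have : (Set.Iio (J + 3)).ncard ≤ B.ncard := by
      refine Set.ncard_le_ncard_of_injOn (fun i => if 2 * i ∈ B then 2 * i else 2 * i + 1) ?_ ?_ hBfin
      · intro i hi
        by_cases h : 2 * i ∈ B
        · simp only [h, if_true]
        · simp only [h, if_false]
          exact hcon i hi h
      · intro i _ k _ hik
        dsimp only at hik
        split_ifs at hik <;> omega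
    have hI : (Set.Iio (J + 3)).ncard = J + 3 := by
      rw [Set.ncard_eq_toFinset_card']
      simp
    omega
  obtain ⟨i, hi, hg1, hg2⟩ := hgood
  have hi1 : 2 * i < 2 * J + 6 := by omega
  have hi2 : 2 * i + 1 < 2 * J + 6 := by omega
  have hs : ∀ j, j < 2 * J + 6 → j ∉ B → Sees W (u j, a) c₁ ∧ Sees W (u j, a) e := by
    intro j hj hjB
    rw [hB, Set.mem_union, not_or] at hjB
    refine ⟨?_, ?_⟩
    · by_contra h
      exact hjB.1 ⟨hj, h⟩
    · by_contra h
      exact hjB.2 ⟨hj, h⟩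
  have hrow : Sees W (u (2 * i), a) (u (2 * i + 1), a) := by
    have hlt := hu (2 * i) (2 * i + 1) (by omega) hi2
    refine ⟨?_, ?_⟩
    · intro h
      rw [Prod.mk.injEq] at h
      exact absurd h.1 (ne_of_lt hlt)
    · intro r hr hseg
      obtain ⟨t, t0, t1, hx, hy⟩ := seg_coords hseg
      simp only at hx hy
      have hr2 : r = (r.1, a) := by
        ext
        · rfl
        · simp only; linarith
      rw [hr2] at hr
      refine huc (2 * i) hi2 r.1 ?_ ?_ hr
      · rw [hx]; nlinarith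
      · rw [hx]; nlinarith
  exact hK.elim5 (hum _ hi1) (hum _ hi2) hc hc1 he hrow (h0 _ hi1) (hs _ hi1 hg1).1 (hs _ hi1 hg1).2
    (h0 _ hi2) (hs _ hi2 hg2).1 (hs _ hi2 hg2).2 h01 h0e h1e

/-- Module P3b (lemma SL): a long row followed by a single point. -/
theorem singleChain (W : Set (ℝ × ℝ)) (hfin : W.Finite) (hK : K5free W) (a : ℝ) (J : ℕ)
    (u : ℕ → ℝ) (hu : ∀ j k, j < k → k < 2 * J + 6 → u j < u k)
    (hum : ∀ j, j < 2 * J + 6 → (u j, a) ∈ W)
    (huc : ∀ j, j + 1 < 2 * J + 6 → ∀ t : ℝ, u j < t → t < u (j + 1) → (t, a) ∉ W)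
    (hJ : Set.ncard {h : ℝ | a < h ∧ ∃ w ∈ W, w.2 = h} ≤ J)
    (c₀ : ℝ × ℝ) (hc : c₀ ∈ W) (hca : a < c₀.2)
    (hfirst : ∀ w ∈ W, a < w.2 → w = c₀ ∨ c₀.2 < w.2) :
    ∀ w ∈ W, ∀ w' ∈ W, a < w.2 → a < w'.2 →
      (w.1 - c₀.1) * (w'.2 - c₀.2) = (w'.1 - c₀.1) * (w.2 - c₀.2) := by
  classical
  have hT : Set.Finite {h : ℝ | a < h ∧ ∃ w ∈ W, w.2 = h} := by
    apply (hfin.image Prod.snd).subset
    rintro h ⟨-, w, hw, rfl⟩
    exact ⟨w, hw, rfl⟩
  -- `c₀` sees the whole row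
  have h0 : ∀ j, j < 2 * J + 6 → Sees W (u j, a) c₀ := by
    intro j hj
    refine ⟨?_, ?_⟩
    · intro h
      rw [← h] at hca
      exact lt_irrefl _ hca
    · intro r hr hseg
      have := seg_heights hseg hca
      rcases hfirst r hr this.1 with h | h
      · rw [h] at this; exact lt_irrefl _ this.2
      · exact lt_irrefl _ (this.2.trans h)
  by_contra hcon
  push Not at hcon
  -- the set of heights of violations
  set Q : Set ((ℝ × ℝ) × (ℝ × ℝ)) := {q | q.1 ∈ W ∧ q.2 ∈ W ∧ a < q.1.2 ∧ a < q.2.2 ∧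
    cr c₀ q.1 q.2 ≠ 0} with hQ
  have hQfin : Q.Finite := by
    apply (hfin.prod hfin).subset
    rintro ⟨w, w'⟩ ⟨h1, h2, -⟩
    exact ⟨h1, h2⟩
  have hQne : Q.Nonempty := by
    obtain ⟨w, hw, w', hw', h1, h2, h3⟩ := hcon
    refine ⟨(w, w'), hw, hw', h1, h2, ?_⟩
    intro h
    apply h3
    simp only [cr] at h
    linarith
  obtain ⟨q, hq, hmin⟩ := Set.exists_min_image Q (fun q => max q.1.2 q.2.2) hQfin hQne
  -- the height of the lowest violation
  obtain ⟨c, e, hcW, heW, hac, hae, hce, hcee, hmin'⟩ : ∃ c e : ℝ × ℝ, c ∈ W ∧ e ∈ W ∧ a < c.2 ∧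
      a < e.2 ∧ cr c₀ c e ≠ 0 ∧ c.2 ≤ e.2 ∧ ∀ w ∈ W, ∀ w' ∈ W, a < w.2 → a < w'.2 →
        w.2 < e.2 → w'.2 < e.2 → cr c₀ w w' = 0 := by
    obtain ⟨w, w'⟩ := q
    obtain ⟨h1, h2, h3, h4, h5⟩ := hq
    simp only at h1 h2 h3 h4 h5 hmin
    have key : ∀ H : ℝ, max w.2 w'.2 = H → ∀ v ∈ W, ∀ v' ∈ W, a < v.2 → a < v'.2 →
        v.2 < H → v'.2 < H → cr c₀ v v' = 0 := by
      intro H hH v hv v' hv' g1 g2 g3 g4
      by_contra g5
      have := hmin (v, v') ⟨hv, hv', g1, g2, g5⟩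
      simp only at this
      rw [hH] at this
      exact absurd (max_lt g3 g4) (not_lt.mpr this)
    rcases le_total w.2 w'.2 with h | h
    · exact ⟨w, w', h1, h2, h3, h4, h5, h, key _ (max_eq_right h)⟩
    · refine ⟨w', w, h2, h1, h4, h3, ?_, h, key _ (max_eq_left h)⟩
      intro h6
      apply h5
      simp only [cr] at h6 ⊢
      linarith
  have hcne : c ≠ c₀ := by
    rintro rfl
    apply hce
    simp [cr]
  have hene : e ≠ c₀ := by
    rintro rfl
    apply hce
    simp [cr]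
  have hcc : c₀.2 < c.2 := (hfirst c hcW hac).resolve_left hcne
  have hcel : c₀.2 < e.2 := (hfirst e heW hae).resolve_left hene
  -- visibility of consecutive rows
  by_cases hmid : ∃ w ∈ W, c₀.2 < w.2 ∧ w.2 < e.2
  · -- Case B
    obtain ⟨w0, hw0, hw01, hw02⟩ := hmid
    obtain ⟨c₁, ⟨hc1W, hc11, hc12⟩, hc1min⟩ := Set.exists_min_image
      {w : ℝ × ℝ | w ∈ W ∧ c₀.2 < w.2 ∧ w.2 < e.2} (fun w => w.2)
      (hfin.subset (fun w hw => hw.1)) ⟨w0, hw0, hw01, hw02⟩
    -- a point of the top row off the line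
    obtain ⟨f, hfW, hf2, hf⟩ : ∃ f ∈ W, f.2 = e.2 ∧ cr c₀ c₁ f ≠ 0 := by
      by_cases he1 : cr c₀ c₁ e = 0
      · by_cases hc2 : c.2 < e.2
        · exfalso
          have h1 := hmin' c₁ hc1W c hcW (hca.trans hc11) hac hc12 hc2
          apply hce
          simp only [cr] at he1 h1 ⊢
          have hpos : c₁.2 - c₀.2 ≠ 0 := ne_of_gt (by linarith)
          apply mul_left_cancel₀ hpos
          linear_combination (c.2 - c₀.2) * he1 - (e.2 - c₀.2) * h1
        · refine ⟨c, hcW, le_antisymm hcee (not_lt.mp hc2), ?_⟩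
          intro h1
          apply hce
          simp only [cr] at he1 h1 ⊢
          have hpos : c₁.2 - c₀.2 ≠ 0 := ne_of_gt (by linarith)
          apply mul_left_cancel₀ hpos
          linear_combination (c.2 - c₀.2) * he1 - (e.2 - c₀.2) * h1
      · exact ⟨e, heW, rfl, he1⟩
    have hac1 : a < c₁.2 := hca.trans hc11
    have haf : a < f.2 := by rw [hf2]; exact hae
    have h0f : c₀.2 < f.2 := by rw [hf2]; exact hcel
    have h1f : c₁.2 < f.2 := by rw [hf2]; exact hc12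
    -- all lower points are on the line
    have hline : ∀ r ∈ W, a < r.2 → r.2 < f.2 → cr c₀ c₁ r = 0 := by
      intro r hr h1 h2
      exact hmin' c₁ hc1W r hr hac1 h1 hc12 (by rw [← hf2]; exact h2)
    have huniq : ∀ r ∈ W, ∀ r' ∈ W, a < r.2 → r.2 < f.2 → r.2 = r'.2 → r = r' := by
      intro r hr r' hr' h1 h2 h3
      have e1 := hline r hr h1 h2
      have e2 := hline r' hr' (h3 ▸ h1) (h3 ▸ h2)
      simp only [cr] at e1 e2
      have hpos : c₁.2 - c₀.2 ≠ 0 := ne_of_gt (by linarith)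
      have : (r.1 - r'.1) * (c₁.2 - c₀.2) = 0 := by
        rw [h3] at e1
        linear_combination e2 - e1
      rcases mul_eq_zero.mp this with h | h
      · exact Prod.ext (by linarith) h3
      · exact absurd h hpos
    refine final_K5 W hK a J u hu hum huc c₀ c₁ f hc hc1W hfW h0 ?_ ?_ ?_ ?_
    · refine ⟨?_, ?_⟩
      · intro h; rw [h] at hc11; exact lt_irrefl _ hc11
      · intro r hr hseg
        have := seg_heights hseg hc11
        have h2 := hc1min r ⟨hr, this.1, this.2.trans hc12⟩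
        exact absurd this.2 (not_lt.mpr h2)
    · refine ⟨?_, ?_⟩
      · intro h; rw [h] at h0f; exact lt_irrefl _ h0f
      · intro r hr hseg
        have h1 := seg_heights hseg h0f
        have h2 := hline r hr (hca.trans h1.1) h1.2
        obtain ⟨t, t0, t1, hx, hy⟩ := seg_coords hseg
        apply hf
        simp only [cr] at h2 ⊢
        rw [hx, hy] at h2
        apply mul_left_cancel₀ t0.ne'
        linear_combination h2
    · refine ⟨?_, ?_⟩
      · intro h; rw [h] at h1f; exact lt_irrefl _ h1f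
      · intro r hr hseg
        have h1 := seg_heights hseg h1f
        have h2 := hline r hr (hac1.trans h1.1) h1.2
        obtain ⟨t, t0, t1, hx, hy⟩ := seg_coords hseg
        apply hf
        simp only [cr] at h2 ⊢
        rw [hx, hy] at h2
        apply mul_left_cancel₀ t0.ne'
        linear_combination h2
    · have b1 := bad_le W hfin a (2 * J + 6) u hu c₁ hac1
        (fun r hr r' hr' h1 h2 h3 => huniq r hr r' hr' h1 (h2.trans h1f) h3)
      have b2 := bad_le W hfin a (2 * J + 6) u hu f haf huniq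
      have b1' : Set.ncard {h : ℝ | a < h ∧ h < c₁.2 ∧ ∃ w ∈ W, w.2 = h} ≤ 1 := by
        rw [← Set.ncard_singleton c₀.2]
        apply Set.ncard_le_ncard
        · rintro h ⟨h1, h2, w, hw, rfl⟩
          rcases hfirst w hw h1 with h3 | h3
          · rw [h3]; rfl
          · exact absurd h2 (not_lt.mpr (hc1min w ⟨hw, h3, h2.trans hc12⟩))
        · exact Set.finite_singleton _
      have b2' : Set.ncard {h : ℝ | a < h ∧ h < f.2 ∧ ∃ w ∈ W, w.2 = h} ≤ J := by
        refine le_trans (Set.ncard_le_ncard ?_ hT) hJ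
        rintro h ⟨h1, -, h2⟩
        exact ⟨h1, h2⟩
      omega
  · -- Case A : two points in the second row
    push Not at hmid
    have hceq : c.2 = e.2 := le_antisymm hcee (hmid c hcW hcc)
    have hne1 : c.1 ≠ e.1 := by
      intro h
      apply hce
      rw [Prod.ext h hceq]
      simp [cr]
    -- two consecutive points
    obtain ⟨f, g, hfW, hgW, hf2, hg2, hfg, hcons⟩ : ∃ f g : ℝ × ℝ, f ∈ W ∧ g ∈ W ∧ f.2 = e.2 ∧
        g.2 = e.2 ∧ f.1 < g.1 ∧ ∀ r ∈ W, r.2 = e.2 → f.1 < r.1 → g.1 ≤ r.1 := by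
      obtain ⟨f, g, hfW, hgW, hf2, hg2, hfg⟩ : ∃ f g : ℝ × ℝ, f ∈ W ∧ g ∈ W ∧ f.2 = e.2 ∧
          g.2 = e.2 ∧ f.1 < g.1 := by
        rcases lt_or_gt_of_ne hne1 with h | h
        · exact ⟨c, e, hcW, heW, hceq, rfl, h⟩
        · exact ⟨e, c, heW, hcW, rfl, hceq, h⟩
      obtain ⟨g', ⟨hg'W, hg'2, hg'1⟩, hg'min⟩ := Set.exists_min_image
        {w : ℝ × ℝ | w ∈ W ∧ w.2 = e.2 ∧ f.1 < w.1} (fun w => w.1)
        (hfin.subset (fun w hw => hw.1)) ⟨g, hgW, hg2, hfg⟩
      exact ⟨f, g', hfW, hg'W, hf2, hg'2, hg'1, fun r hr h1 h2 => hg'min r ⟨hr, h1, h2⟩⟩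
    have key : ∀ f ∈ W, f.2 = e.2 → Sees W c₀ f ∧
        Set.ncard {j : ℕ | j < 2 * J + 6 ∧ ¬ Sees W (u j, a) f} ≤ 1 := by
      intro f hf hf2
      have h0f : c₀.2 < f.2 := by rw [hf2]; exact hcel
      refine ⟨⟨?_, ?_⟩, ?_⟩
      · intro h; rw [h] at h0f; exact lt_irrefl _ h0f
      · intro r hr hseg
        have := seg_heights hseg h0f
        exact absurd this.2 (not_lt.mpr (by rw [hf2]; exact hmid r hr this.1))
      · have hU : ∀ r ∈ W, a < r.2 → r.2 < f.2 → r = c₀ := by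
          intro r hr h1 h2
          rcases hfirst r hr h1 with h | h
          · exact h
          · exact absurd h2 (not_lt.mpr (by rw [hf2]; exact hmid r hr h))
        have b := bad_le W hfin a (2 * J + 6) u hu f (hca.trans h0f)
          (fun r hr r' hr' h1 h2 h3 => by
            rw [hU r hr h1 h2, hU r' hr' (h3 ▸ h1) (h3 ▸ h2)])
        refine le_trans b ?_
        rw [← Set.ncard_singleton c₀.2]
        apply Set.ncard_le_ncard
        · rintro h ⟨h1, h2, w, hw, rfl⟩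
          rw [hU w hw h1 h2]; rfl
        · exact Set.finite_singleton _
    refine final_K5 W hK a J u hu hum huc c₀ f g hc hfW hgW h0 (key f hfW hf2).1 (key g hgW hg2).1
      ?_ ?_
    · refine ⟨?_, ?_⟩
      · intro h; rw [h] at hfg; exact lt_irrefl _ hfg
      · intro r hr hseg
        obtain ⟨t, t0, t1, hx, hy⟩ := seg_coords hseg
        have hr2 : r.2 = e.2 := by rw [hy, hf2, hg2]; ring
        have := hcons r hr hr2 (by rw [hx]; nlinarith)
        rw [hx] at this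
        nlinarith
    · have := (key f hfW hf2).2
      have := (key g hgW hg2).2
      omega

end Pool.Agent.helper80.Vis
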